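import Pool.Agent.L7h93.TH.Sum

set_option autoImplicit false

/-! The assembly: from the parts to the theorem. -/

namespace Pool.Agent.L7h93.TH

open Pool.Agent.Results.MP_e16cda_ag.ThreeMomentsFail Finset

variable {g : ℕ}

theorem ml_add (hS : S_SUM) {c : Lat g → ℂ} (hc : Dec c) (P R : MvPolynomial (Fin g) ℂ) :
    ml c (P + R) = ml c P + ml c R := by
  unfold ml
  rw [← (hS g c hc P).of_norm.tsum_add (hS g c hc R).of_norm]
  refine tsum_congr fun s => ?_
  rw [map_add]; ring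

theorem ml_smul (c : Lat g → ℂ) (a : ℂ) (P : MvPolynomial (Fin g) ℂ) :
    ml c (a • P) = a * ml c P := by
  unfold ml
  rw [← tsum_mul_left]
  refine tsum_congr fun s => ?_
  rw [MvPolynomial.smul_eval]; ring

theorem ml_const_mul (c : Lat g → ℂ) (a : ℂ) (P : MvPolynomial (Fin g) ℂ) :
    ml (fun s => a * c s) P = a * ml c P := by
  unfold ml
  rw [← tsum_mul_left]
  refine tsum_congr fun s => ?_
  ring

/-- `ml` as a linear map -/
noncomputable def mlL (hS : S_SUM) (c : Lat g → ℂ) (hc : Dec c) : MvPolynomial (Fin g) ℂ →ₗ[ℂ] ℂ where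
  toFun := ml c
  map_add' := ml_add hS hc
  map_smul' a P := by simp [ml_smul]

/-- the induction step -/
theorem step (hEXPD : S_EXPD) (hEXPV : S_EXPV) (hPOL : S_POL) {N : ℕ} {p p' : Lat g → ℂ}
    (hp : Dec p) (hp' : Dec p') (h1 : ml p 1 = 1) {S : Type} [Fintype S]
    {PP RR : S → MvPolynomial (Fin g) ℂ} (hPP : ∀ τ, (PP τ).totalDegree ≤ N)
    (hRR : ∀ τ, (RR τ).totalDegree ≤ N)
    (hG : ∀ P R, GG p P R = ∑ τ, GG p P (RR τ) * GG p (PP τ) R)
    (hG' : ∀ P R, GG p' P R = ∑ τ, GG p' P (RR τ) * GG p' (PP τ) R) {k : ℕ} (hk : 2 * N + 2 ≤ k)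
    (hD : ∀ P : MvPolynomial (Fin g) ℂ, P.totalDegree ≤ k → ml p P = ml p' P) :
    ∀ P : MvPolynomial (Fin g) ℂ, P.totalDegree ≤ k + 1 → ml p P = ml p' P := by
  have hGG : ∀ P R : MvPolynomial (Fin g) ℂ, P.totalDegree + R.totalDegree ≤ k →
      GG p P R = GG p' P R := by
    intro P R hPR
    obtain ⟨J, _, U, V, hdeg, hUV⟩ := hEXPD g P R
    rw [hUV p hp, hUV p' hp']
    refine Finset.sum_congr rfl fun j _ => ?_
    have := hdeg j
    rw [hD (U j) (by omega), hD (V j) (by omega)]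
  have h1' : ml p' 1 = 1 := by
    rw [← hD 1 (by simp)]; exact h1
  have hGG2 : ∀ P R : MvPolynomial (Fin g) ℂ, P.totalDegree + N ≤ k → R.totalDegree + N ≤ k →
      GG p P R = GG p' P R := by
    intro P R hP hR
    rw [hG, hG']
    refine Finset.sum_congr rfl fun τ _ => ?_
    rw [hGG P (RR τ) (by have := hRR τ; omega), hGG (PP τ) R (by have := hPP τ; omega)]
  refine hPOL g k p p' hp hp' hD fun v => ?_
  obtain ⟨b, hb, hbN, hbN2⟩ : ∃ b : ℕ, Even b ∧ N + 1 ≤ b ∧ b ≤ N + 2 := by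
    rcases Nat.even_or_odd N with h | h
    · exact ⟨N + 2, h.add (by decide), by omega, le_rfl⟩
    · exact ⟨N + 1, h.add_one, le_rfl, by omega⟩
  obtain ⟨a, ha⟩ : ∃ a : ℕ, a + b = k + 1 := ⟨k + 1 - b, by omega⟩
  obtain ⟨e, he⟩ := hEXPV a b hb (by omega)
  have hlf : ∀ j : ℕ, (lf v ^ j : MvPolynomial (Fin g) ℂ).totalDegree ≤ j := by
    intro j
    refine (MvPolynomial.totalDegree_pow _ _).trans ?_
    have h2 : (lf v : MvPolynomial (Fin g) ℂ).totalDegree ≤ 1 := by
      unfold lf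
      refine MvPolynomial.totalDegree_finsetSum_le fun i _ => ?_
      refine (MvPolynomial.totalDegree_mul _ _).trans ?_
      rw [MvPolynomial.totalDegree_C, MvPolynomial.totalDegree_X]
    calc j * (lf v : MvPolynomial (Fin g) ℂ).totalDegree ≤ j * 1 := Nat.mul_le_mul_left _ h2
      _ = j := mul_one j
  have h2 := hGG2 (lf v ^ a) (lf v ^ b) (by have := hlf a; omega) (by have := hlf b; omega)
  rw [he g v p hp h1, he g v p' hp' h1', ha] at h2
  have h3 : ∑ j ∈ Ico 1 (k + 1), e j * ml p (lf v ^ (k + 1 - j)) * ml p (lf v ^ j) =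
      ∑ j ∈ Ico 1 (k + 1), e j * ml p' (lf v ^ (k + 1 - j)) * ml p' (lf v ^ j) := by
    refine Finset.sum_congr rfl fun j hj => ?_
    rw [mem_Ico] at hj
    rw [hD _ ((hlf (k + 1 - j)).trans (by omega)), hD _ ((hlf j).trans (by omega))]
  rw [h3] at h2
  have h4 := add_right_cancel h2
  exact mul_left_cancel₀ two_ne_zero h4

theorem GG_const (p : Lat g → ℂ) (a : ℂ) (P R : MvPolynomial (Fin g) ℂ) :
    GG (fun s => a * p s) P R = a ^ 2 * GG p P R := by
  unfold GG
  rw [← tsum_mul_left]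
  refine tsum_congr fun s => ?_
  ring

theorem gaussian_eq (u : Sp g) (B : Matrix (Fin g) (Fin g) ℂ) :
    gaussian u B = fun s => (theta u B)⁻¹ * weight u B s := by
  funext s
  unfold gaussian
  rw [div_eq_inv_mul]

theorem Dec.const_mul {c : Lat g → ℂ} (hc : Dec c) (a : ℂ) : Dec fun s => a * c s := by
  intro A
  refine ((hc A).mul_left ‖a‖).congr fun s => ?_
  rw [norm_mul, mul_assoc]

/-- moments up to order `d` are the functionals on the polynomials of degree at most `d` -/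
theorem ml_of_moments (hS : S_SUM) {u : Sp g} {B : Matrix (Fin g) (Fin g) ℂ} {u' : Sp g}
    {B' : Matrix (Fin g) (Fin g) ℂ} (hd : Dec (gaussian u B)) (hd' : Dec (gaussian u' B')) {d : ℕ}
    (h : ∀ α : Fin g → ℕ, ∑ i, α i ≤ d → moment u B α = moment u' B' α)
    (P : MvPolynomial (Fin g) ℂ) (hP : P.totalDegree ≤ d) :
    ml (gaussian u B) P = ml (gaussian u' B') P := by
  classical
  have key : ∀ (u : Sp g) (B : Matrix (Fin g) (Fin g) ℂ) (hd : Dec (gaussian u B)),
      ml (gaussian u B) P = ∑ α ∈ P.support, P.coeff α * moment u B (fun i => α i) := by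
    intro u B hd
    have h1 : ml (gaussian u B) P = mlL hS _ hd P := rfl
    rw [h1]
    conv_lhs => rw [P.as_sum]
    rw [map_sum]
    refine Finset.sum_congr rfl fun α _ => ?_
    have h2 : MvPolynomial.monomial α (P.coeff α) =
        P.coeff α • (MvPolynomial.monomial α (1 : ℂ)) := by
      rw [MvPolynomial.smul_monomial, smul_eq_mul, mul_one]
    rw [h2, map_smul, smul_eq_mul]
    congr 1
    change ml (gaussian u B) (MvPolynomial.monomial α (1 : ℂ)) = _
    unfold ml moment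
    refine tsum_congr fun s => ?_
    rw [MvPolynomial.eval_monomial, one_mul, Finsupp.prod_fintype _ _ (fun i => pow_zero _)]
    ring
  rw [key u B hd, key u' B' hd']
  refine Finset.sum_congr rfl fun α hα => ?_
  rw [h]
  have h3 := MvPolynomial.le_totalDegree hα
  refine le_trans (le_of_eq ?_) (h3.trans hP)
  rw [Finsupp.sum_fintype _ _ (fun i => rfl)]

theorem main (hDCF : S_DCF) (hFAC : S_FAC) (hIDP : S_IDP) (hDUAL : S_DUAL) (hEXPD : S_EXPD)
    (hEXPV : S_EXPV) (hPOL : S_POL) (hALL : S_ALL) : S_MAIN := by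
  have hS : S_SUM := s_SUM
  intro g hg u B u' B' hB hB' hθ hθ' hmom
  have hw := hDCF g B hB u
  have hw' := hDCF g B' hB' u'
  have h0 := hDCF g B hB 0
  have h0' := hDCF g B' hB' 0
  have hd : Dec (gaussian u B) := by rw [gaussian_eq]; exact hw.1.const_mul _
  have hd' : Dec (gaussian u' B') := by rw [gaussian_eq]; exact hw'.1.const_mul _
  have hml := ml_of_moments hS hd hd' hmom
  have h1 : ml (gaussian u B) 1 = 1 := by
    rw [gaussian_eq, ml_const_mul]
    have : ml (weight u B) 1 = theta u B := by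
      unfold ml theta
      refine tsum_congr fun s => ?_
      rw [map_one, mul_one]
    rw [this, inv_mul_cancel₀ hθ]
  -- the functionals
  obtain ⟨z, hz⟩ : ∃ z, z = (theta u B)⁻¹ := ⟨_, rfl⟩
  obtain ⟨z', hz'⟩ : ∃ z', z' = (theta u' B')⁻¹ := ⟨_, rfl⟩
  have hz0 : z ≠ 0 := by rw [hz]; exact inv_ne_zero hθ
  have hz0' : z' ≠ 0 := by rw [hz']; exact inv_ne_zero hθ'
  let A : (Fin g → ZMod 2) → MvPolynomial (Fin g) ℂ →ₗ[ℂ] ℂ := fun σ => z • mlL hS _ (hw.2 σ)
  let Bf : (Fin g → ZMod 2) → MvPolynomial (Fin g) ℂ →ₗ[ℂ] ℂ := fun σ => z • mlL hS _ (h0.2 σ)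
  let A' : (Fin g → ZMod 2) → MvPolynomial (Fin g) ℂ →ₗ[ℂ] ℂ := fun σ => z' • mlL hS _ (hw'.2 σ)
  let Bf' : (Fin g → ZMod 2) → MvPolynomial (Fin g) ℂ →ₗ[ℂ] ℂ := fun σ => z' • mlL hS _ (h0'.2 σ)
  have hA : ∀ σ P, A σ P = z * ml (cf u B σ) P := fun σ P => rfl
  have hBf : ∀ σ P, Bf σ P = z * ml (cf 0 B σ) P := fun σ P => rfl
  have hA' : ∀ σ P, A' σ P = z' * ml (cf u' B' σ) P := fun σ P => rfl
  have hBf' : ∀ σ P, Bf' σ P = z' * ml (cf 0 B' σ) P := fun σ P => rfl
  have hGA : ∀ P R, GG (gaussian u B) P R = ∑ σ, A σ P * Bf σ R := by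
    intro P R
    rw [gaussian_eq, GG_const, hFAC g B hB u P R, ← hz, Finset.mul_sum]
    refine Finset.sum_congr rfl fun σ _ => ?_
    rw [hA, hBf]; ring
  have hGA' : ∀ P R, GG (gaussian u' B') P R = ∑ σ, A' σ P * Bf' σ R := by
    intro P R
    rw [gaussian_eq, GG_const, hFAC g B' hB' u' P R, ← hz', Finset.mul_sum]
    refine Finset.sum_congr rfl fun σ _ => ?_
    rw [hA', hBf']; ring
  have hind : ∀ (x : Sp g) (c : (Fin g → ZMod 2) → ℂ), (∀ P : MvPolynomial (Fin g) ℂ,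
      P.totalDegree ≤ Kg g → ∑ σ, c σ * (z * ml (cf x B σ) P) = 0) → c = 0 := by
    intro x c hc
    refine hIDP g B hg hB x c fun P hP => ?_
    have h2 := hc P hP
    have h3 : ∑ σ, c σ * (z * ml (cf x B σ) P) = z * ∑ σ, c σ * ml (cf x B σ) P := by
      rw [Finset.mul_sum]
      exact Finset.sum_congr rfl fun σ _ => by ring
    rw [h3] at h2
    exact (mul_eq_zero.1 h2).resolve_left hz0
  have hGG : ∀ P R : MvPolynomial (Fin g) ℂ, P.totalDegree ≤ Kg g → R.totalDegree ≤ Kg g →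
      GG (gaussian u' B') P R = GG (gaussian u B) P R := by
    intro P R hP hR
    obtain ⟨J, _, U, V, hdeg, hUV⟩ := hEXPD g P R
    rw [hUV _ hd, hUV _ hd']
    refine Finset.sum_congr rfl fun j _ => ?_
    have := hdeg j
    rw [hml (U j) (by omega), hml (V j) (by omega)]
  obtain ⟨PP, RR, hPP, hRR, hE, hE'⟩ := hDUAL g (Kg g) (Fin g → ZMod 2) A Bf A' Bf'
    (fun c hc => hind u c hc) (fun c hc => hind 0 c hc) (fun P R hP hR => by
      rw [← hGA, ← hGA']; exact hGG P R hP hR)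
  have hall : ∀ k : ℕ, ∀ P : MvPolynomial (Fin g) ℂ, P.totalDegree ≤ 2 * Kg g + 2 + k →
      ml (gaussian u B) P = ml (gaussian u' B') P := by
    intro k
    induction k with
    | zero => exact hml
    | succ k ih =>
      exact step (k := 2 * Kg g + 2 + k) hEXPD hEXPV hPOL hd hd' h1 hPP hRR
        (fun P R => by simp only [hGA]; exact hE P R)
        (fun P R => by simp only [hGA']; exact hE' P R) (by omega) ih
  exact hALL g _ _ hd hd' fun P => hall P.totalDegree P (by omega)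

end Pool.Agent.L7h93.TH
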