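import Pool.Agent.L7h93.TH.Sum

set_option autoImplicit false

/-! Part JET. -/

namespace Pool.Agent.L7h93.TH

open Pool.Agent.Results.MP_e16cda_ag.ThreeMomentsFail Finset

variable {g : ℕ}

theorem norm_dot_le (s : Lat g) (x : Sp g) : ‖dot s x‖ ≤ (∑ i, ‖x i‖) * sz s := by
  unfold dot
  refine (norm_sum_le _ _).trans ?_
  rw [Finset.sum_mul]
  refine Finset.sum_le_sum fun i _ => ?_
  rw [norm_mul, mul_comm]
  exact mul_le_mul_of_nonneg_left (norm_coord_le s i) (norm_nonneg _)

theorem Fs_summable {c : Lat g → ℂ} (hc : Dec c) (x : Sp g) :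
    Summable fun s => c s * Complex.exp (2 * Real.pi * dot s x) := by
  refine Summable.of_norm_bounded (hc (2 * Real.pi * ∑ i, ‖x i‖)) fun s => ?_
  rw [norm_mul]
  refine mul_le_mul_of_nonneg_left ?_ (norm_nonneg _)
  refine (Complex.norm_exp_le_exp_norm _).trans (Real.exp_le_exp.2 ?_)
  rw [norm_mul]
  have h1 : ‖(2 * Real.pi : ℂ)‖ = 2 * Real.pi := by
    rw [norm_mul, Complex.norm_real, Real.norm_of_nonneg Real.pi_pos.le]
    simp
  rw [h1]
  have h2 := mul_le_mul_of_nonneg_left (norm_dot_le s x)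
    (show (0 : ℝ) ≤ 2 * Real.pi by have := Real.pi_pos; positivity)
  linarith

theorem Fs_add {c c' : Lat g → ℂ} (hc : Dec c) (hc' : Dec c') (x : Sp g) :
    Fs (fun s => c s + c' s) x = Fs c x + Fs c' x := by
  unfold Fs
  rw [← (Fs_summable hc x).tsum_add (Fs_summable hc' x)]
  exact tsum_congr fun s => by ring

theorem Fs_smul (a : ℂ) (c : Lat g → ℂ) (x : Sp g) : Fs (fun s => a * c s) x = a * Fs c x := by
  unfold Fs
  rw [← tsum_mul_left]
  exact tsum_congr fun s => by ring

theorem Fs_sum {ι : Type} (J : Finset ι) (a : ι → ℂ) (c : ι → Lat g → ℂ) (hc : ∀ i, Dec (c i))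
    (x : Sp g) : Fs (fun s => ∑ i ∈ J, a i * c i s) x = ∑ i ∈ J, a i * Fs (c i) x := by
  unfold Fs
  simp_rw [← tsum_mul_left]
  rw [← Summable.tsum_finsetSum fun i _ => (Fs_summable (hc i) x).mul_left (a i)]
  refine tsum_congr fun s => ?_
  rw [Finset.sum_mul]
  exact Finset.sum_congr rfl fun i _ => by ring

theorem dot_single (s : Lat g) (i : Fin g) : dot s (Pi.single i 1) = (s i : ℂ) := by
  unfold dot
  rw [Finset.sum_eq_single i]
  · rw [Pi.single_eq_same, mul_one]
  · intro j _ hj
    rw [Pi.single_eq_of_ne hj, mul_zero]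
  · intro h; exact absurd (Finset.mem_univ i) h

theorem dv_sum (v : Sp g) (c : Lat g → ℂ) :
    dv v 1 c = fun s => ∑ i, v i * dv (Pi.single i 1) 1 c s := by
  funext s
  unfold dv
  simp only [pow_one, dot_single]
  unfold dot
  rw [Finset.mul_sum, Finset.sum_mul]
  exact Finset.sum_congr rfl fun i _ => by ring

theorem translate_InE (B : Matrix (Fin g) (Fin g) ℂ) (a : Sp g) :
    InE B 1 a fun x => th B (x + a) := by
  refine ⟨fun s => Complex.exp (2 * Real.pi * dot s a), ?_, ?_⟩
  · intro s k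
    simp only
    rw [← Complex.exp_add, dot_add, dot_smul]
    congr 1
    push_cast
    ring
  · funext x
    unfold th Fs co
    refine tsum_congr fun s => ?_
    have : dot s (x + a) = dot s x + dot s a := by
      unfold dot
      rw [← Finset.sum_add_distrib]
      exact Finset.sum_congr rfl fun i _ => by rw [Pi.add_apply]; ring
    rw [this, one_mul, mul_add, Complex.exp_add]
    ring

theorem three_InE (hMUL : S_MUL) {B : Matrix (Fin g) (Fin g) ℂ} (hB : IsParameter B) (a b : Sp g) :
    InE B 3 0 fun x => th B (x + a) * th B (x + b) * th B (x + (-a - b)) := by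
  have h1 := hMUL g B hB 1 1 le_rfl le_rfl a b _ _ (translate_InE B a) (translate_InE B b)
  have h2 := hMUL g B hB (1 + 1) 1 (by norm_num) le_rfl (a + b) (-a - b) _ _ h1
    (translate_InE B (-a - b))
  have e : a + b + (-a - b) = 0 := by abel
  rw [e] at h2
  exact h2

/-- the space of periodic coefficients -/
def Per (g : ℕ) : Submodule ℂ (Lat g → ℂ) where
  carrier := {C | QP 3 0 C}
  add_mem' := by
    intro C D hC hD s k
    have h1 := hC s k
    have h2 := hD s k
    simp only [Pi.add_apply]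
    rw [h1, h2]; ring
  zero_mem' := by intro s k; simp
  smul_mem' := by
    intro a C hC s k
    have h1 := hC s k
    simp only [Pi.smul_apply, smul_eq_mul]
    rw [h1]; ring

/-- the jet map -/
noncomputable def J1 (hDEC : S_DEC) (hDV : S_DV) {B : Matrix (Fin g) (Fin g) ℂ}
    (hB : IsParameter B) (p : Sp g) : Per g →ₗ[ℂ] ℂ × (Fin g → ℂ) where
  toFun C := (Fs (co B 3 C) p, fun i => Fs (dv (Pi.single i 1) 1 (co B 3 C)) p)
  map_add' := by
    rintro ⟨C, hC⟩ ⟨D, hD⟩
    have dC := hDEC g B hB 3 (by norm_num) 0 C hC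
    have dD := hDEC g B hB 3 (by norm_num) 0 D hD
    have e : co B 3 (C + D) = fun s => co B 3 C s + co B 3 D s := by
      funext s; unfold co; rw [Pi.add_apply]; ring
    refine Prod.ext ?_ (funext fun i => ?_)
    · change Fs (co B 3 (C + D)) p = Fs (co B 3 C) p + Fs (co B 3 D) p
      rw [e]
      exact Fs_add dC dD p
    · change Fs (dv (Pi.single i 1) 1 (co B 3 (C + D))) p =
        Fs (dv (Pi.single i 1) 1 (co B 3 C)) p + Fs (dv (Pi.single i 1) 1 (co B 3 D)) p
      rw [e]
      have e2 : dv (Pi.single i 1) 1 (fun s => co B 3 C s + co B 3 D s) =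
          fun s => dv (Pi.single i 1) 1 (co B 3 C) s + dv (Pi.single i 1) 1 (co B 3 D) s := by
        funext s; unfold dv; ring
      rw [e2]
      exact Fs_add (hDV g _ dC _ _) (hDV g _ dD _ _) p
  map_smul' := by
    rintro a ⟨C, hC⟩
    have e : co B 3 (a • C) = fun s => a * co B 3 C s := by
      funext s; unfold co; rw [Pi.smul_apply, smul_eq_mul]; ring
    refine Prod.ext ?_ (funext fun i => ?_)
    · change Fs (co B 3 (a • C)) p = a * Fs (co B 3 C) p
      rw [e]
      exact Fs_smul a _ p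
    · change Fs (dv (Pi.single i 1) 1 (co B 3 (a • C))) p =
        a * Fs (dv (Pi.single i 1) 1 (co B 3 C)) p
      rw [e]
      have e2 : dv (Pi.single i 1) 1 (fun s => a * co B 3 C s) =
          fun s => a * dv (Pi.single i 1) 1 (co B 3 C) s := by
        funext s; unfold dv; ring
      rw [e2]
      exact Fs_smul a _ p

theorem th_dec (hDEC : S_DEC) {B : Matrix (Fin g) (Fin g) ℂ} (hB : IsParameter B) :
    Dec (co B 1 fun _ => 1) := by
  refine hDEC g B hB 1 le_rfl 0 _ ?_
  intro s k
  have : dot k (0 : Sp g) = 0 := by unfold dot; simp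
  rw [this]; simp

/-- the derivative of the product of the three translates -/
theorem three_deriv (hDEC : S_DEC) (hDER : S_DER) {B : Matrix (Fin g) (Fin g) ℂ}
    (hB : IsParameter B) (a b p v : Sp g) :
    HasDerivAt (fun t : ℂ => th B (p + t • v + a) * th B (p + t • v + b) *
      th B (p + t • v + (-a - b)))
      (thv B v (p + a) * th B (p + b) * th B (p + (-a - b)) +
        th B (p + a) * thv B v (p + b) * th B (p + (-a - b)) +
        th B (p + a) * th B (p + b) * thv B v (p + (-a - b))) 0 := by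
  have hd : ∀ x : Sp g, HasDerivAt (fun t : ℂ => th B (p + t • v + x)) (thv B v (p + x)) 0 := by
    intro x
    have h := hDER g _ (th_dec hDEC hB) (p + x) v 0
    rw [zero_smul, add_zero] at h
    refine h.congr_of_eventuallyEq (Filter.Eventually.of_forall fun t => ?_)
    simp only
    unfold th
    congr 1
    abel
  have h1 := ((hd a).mul (hd b)).mul (hd (-a - b))
  refine h1.congr_deriv ?_
  simp only [Pi.mul_apply, zero_smul, add_zero]
  ring

theorem s_JET (hDEC : S_DEC) (hDV : S_DV) (hTAY : S_TAY) (hDER : S_DER) (hMUL : S_MUL)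
    (hANN : S_ANN) : S_JET := by
  intro g B hB p
  have hdec : ∀ C : Per g, Dec (co B 3 C) := fun C => hDEC g B hB 3 (by norm_num) 0 C C.2
  have hsurj : LinearMap.range (J1 hDEC hDV hB p) = ⊤ := by
    by_contra hne
    obtain ⟨φ, hφ, hφ'⟩ := Submodule.exists_le_ker_of_lt_top _ (lt_top_iff_ne_top.2 hne)
    apply hφ
    obtain ⟨c₀, hc₀⟩ : ∃ c₀, c₀ = φ (1, 0) := ⟨_, rfl⟩
    obtain ⟨v, hv⟩ : ∃ v : Fin g → ℂ, v = fun i => φ (0, Pi.single i 1) := ⟨_, rfl⟩
    have hform : ∀ (a : ℂ) (b : Fin g → ℂ), φ (a, b) = a * c₀ + ∑ i, v i * b i := by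
      intro a b
      have e : ((a, b) : ℂ × (Fin g → ℂ)) = a • ((1, 0) : ℂ × (Fin g → ℂ)) +
          ∑ i, b i • ((0, Pi.single i 1) : ℂ × (Fin g → ℂ)) := by
        refine Prod.ext ?_ ?_
        · simp [Prod.fst_sum]
        · simp only [Prod.snd_add, Prod.smul_snd, smul_zero, zero_add, Prod.snd_sum]
          funext j
          rw [Finset.sum_apply, Finset.sum_eq_single j]
          · simp
          · intro i _ hi
            simp [Pi.single_eq_of_ne hi.symm]
          · intro h; exact absurd (Finset.mem_univ j) h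
      rw [e, map_add, map_smul, map_sum, ← hc₀, smul_eq_mul]
      congr 1
      refine Finset.sum_congr rfl fun i _ => ?_
      rw [map_smul, hv, smul_eq_mul]; ring
    have hz := hANN g B hB (p + p + p) c₀ v ?_
    · obtain ⟨h1, h2⟩ := hz
      refine LinearMap.ext fun ab => ?_
      rw [show ab = (ab.1, ab.2) from rfl, hform, h1, h2]
      simp
    · intro x y z hxyz
      obtain ⟨C, hC, hCf⟩ := three_InE hMUL hB (x - p) (y - p)
      have hker : φ (J1 hDEC hDV hB p ⟨C, hC⟩) = 0 := by
        have := hφ' (LinearMap.mem_range_self (J1 hDEC hDV hB p) ⟨C, hC⟩)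
        exact this
      have hJ : J1 hDEC hDV hB p ⟨C, hC⟩ =
        (Fs (co B 3 C) p, fun i => Fs (dv (Pi.single i 1) 1 (co B 3 C)) p) := rfl
      rw [hJ, hform] at hker
      have hdC : Dec (co B 3 C) := hDEC g B hB 3 (by norm_num) 0 C hC
      have e1 : ∑ i, v i * Fs (dv (Pi.single i 1) 1 (co B 3 C)) p = Fs (dv v 1 (co B 3 C)) p := by
        rw [dv_sum v (co B 3 C), Fs_sum _ _ _ (fun i => hDV g _ hdC _ _)]
      rw [e1] at hker
      have hder := hDER g _ hdC p v 0
      rw [zero_smul, add_zero] at hder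
      have hder2 := three_deriv hDEC hDER hB (x - p) (y - p) p v
      have e2 : (fun t : ℂ => Fs (co B 3 C) (p + t • v)) = fun t : ℂ =>
          th B (p + t • v + (x - p)) * th B (p + t • v + (y - p)) *
          th B (p + t • v + (-(x - p) - (y - p))) := by
        funext t
        rw [← hCf]
      rw [e2] at hder
      rw [hder.unique hder2, ← hCf] at hker
      have ex : p + (x - p) = x := by abel
      have ey : p + (y - p) = y := by abel
      have ez : p + (-(x - p) - (y - p)) = z := by
        have : z = p + p + p - x - y := by rw [← hxyz]; abel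
        rw [this]; abel
      simp only [ex, ey, ez] at hker
      linear_combination hker
  have hpre : ∀ y : ℂ × (Fin g → ℂ), ∃ C : Per g, Fs (co B 3 C) p = y.1 ∧
      ∀ w : Sp g, Fs (dv w 1 (co B 3 C)) p = ∑ i, w i * y.2 i := by
    intro y
    obtain ⟨C, hC⟩ := LinearMap.range_eq_top.1 hsurj y
    have hJ : J1 hDEC hDV hB p C =
        (Fs (co B 3 C) p, fun i => Fs (dv (Pi.single i 1) 1 (co B 3 C)) p) := rfl
    rw [hJ] at hC
    refine ⟨C, by rw [← hC], fun w => ?_⟩
    rw [dv_sum w (co B 3 C), Fs_sum _ _ _ (fun i => hDV g _ (hdec C) _ _), ← hC]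
  obtain ⟨C₀, hC₀, -⟩ := hpre (1, 0)
  choose C hC1 hC2 using fun i : Fin g => hpre (0, Pi.single i 1)
  refine ⟨Fs (co B 3 C₀), fun i => Fs (co B 3 (C i)), ⟨C₀, C₀.2, rfl⟩,
    fun i => ⟨C i, (C i).2, rfl⟩, fun w => ?_⟩
  obtain ⟨K₀, hK₀⟩ := hTAY g _ (hdec C₀) p w 1
  choose K hK using fun i : Fin g => hTAY g _ (hdec (C i)) p w 2
  have hdv0 : ∀ c : Lat g → ℂ, dv w 0 c = c := by
    intro c; funext s; unfold dv; simp
  refine ⟨max K₀ (∑ i, |K i|), fun t ht => ⟨?_, fun i => ?_⟩⟩
  · have h1 := hK₀ t ht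
    simp only [Finset.sum_range_one, pow_zero, Nat.factorial_zero, Nat.cast_one, div_one, one_mul,
      hdv0, pow_one] at h1
    rw [hC₀] at h1
    exact h1.trans (mul_le_mul_of_nonneg_right (le_max_left _ _) (norm_nonneg _))
  · have h1 := hK i t ht
    simp only [Finset.sum_range_succ, Finset.sum_range_zero, pow_zero, Nat.factorial_zero,
      Nat.cast_one, div_one, one_mul, hdv0, pow_one, zero_add, Nat.factorial_one] at h1
    rw [hC1 i, hC2 i w] at h1
    have e : ∑ j, w j * (Pi.single i (1 : ℂ) : Fin g → ℂ) j = w i := by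
      rw [Finset.sum_eq_single i]
      · simp
      · intro j _ hj; simp [Pi.single_eq_of_ne hj]
      · intro h; exact absurd (Finset.mem_univ i) h
    simp only [e, zero_add] at h1
    refine h1.trans (mul_le_mul_of_nonneg_right ?_ (by positivity))
    refine le_trans ?_ (le_max_right _ _)
    exact (le_abs_self _).trans (Finset.single_le_sum (f := fun i => |K i|)
      (fun j _ => abs_nonneg _) (Finset.mem_univ i))

end Pool.Agent.L7h93.TH
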