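import Pool.Agent.Results.MP_e16cda_ag.ThreeMomentsFail

/-!
# Project TH: moments up to an explicit order determine complex discrete Gaussians

Statements of the independent parts, with proofs on paper in the doc comments.
-/

set_option autoImplicit false

namespace Pool.Agent.L7h93.TH

open Pool.Agent.Results.MP_e16cda_ag.ThreeMomentsFail Finset

/-- the lattice -/
abbrev Lat (g : ℕ) := Fin g → ℤ

/-- the space -/
abbrev Sp (g : ℕ) := Fin g → ℂ

/-- `s · x` -/
noncomputable def dot {g : ℕ} (s : Lat g) (x : Sp g) : ℂ := ∑ i, (s i : ℂ) * x i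

/-- `sᵗ B s` -/
noncomputable def Q {g : ℕ} (B : Matrix (Fin g) (Fin g) ℂ) (s : Lat g) : ℂ :=
  ∑ i, ∑ j, (s i : ℂ) * B i j * (s j : ℂ)

/-- the size of a lattice point -/
noncomputable def sz {g : ℕ} (s : Lat g) : ℝ := ∑ i, |(s i : ℝ)|

/-- coefficients which decay faster than all exponentials -/
def Dec {g : ℕ} (c : Lat g → ℂ) : Prop :=
  ∀ A : ℝ, Summable fun s => ‖c s‖ * Real.exp (A * sz s)

/-- the exponential sum with the coefficients `c` -/
noncomputable def Fs {g : ℕ} (c : Lat g → ℂ) (x : Sp g) : ℂ :=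
  ∑' s, c s * Complex.exp (2 * Real.pi * dot s x)

/-- the coefficients of the `k`-th derivative in the direction `w` -/
noncomputable def dv {g : ℕ} (w : Sp g) (k : ℕ) (c : Lat g → ℂ) : Lat g → ℂ :=
  fun s => (2 * Real.pi * dot s w) ^ k * c s

/-- quasi-periodic coefficients -/
def QP {g : ℕ} (n : ℕ) (t : Sp g) (C : Lat g → ℂ) : Prop :=
  ∀ s k : Lat g, C (s + (n : ℤ) • k) = Complex.exp (2 * Real.pi * dot k t) * C s

/-- the coefficients of a theta function of order `n` -/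
noncomputable def co {g : ℕ} (B : Matrix (Fin g) (Fin g) ℂ) (n : ℕ) (C : Lat g → ℂ) : Lat g → ℂ :=
  fun s => C s * Complex.exp (-(Real.pi / n) * Q B s)

/-- theta functions of order `n` -/
def InE {g : ℕ} (B : Matrix (Fin g) (Fin g) ℂ) (n : ℕ) (t : Sp g) (f : Sp g → ℂ) : Prop :=
  ∃ C : Lat g → ℂ, QP n t C ∧ f = Fs (co B n C)

/-- functions which are entire on every complex line -/
def LA {g : ℕ} (f : Sp g → ℂ) : Prop :=
  ∀ x w : Sp g, Differentiable ℂ fun t : ℂ => f (x + t • w)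

/-- the theta function of order one -/
noncomputable def th {g : ℕ} (B : Matrix (Fin g) (Fin g) ℂ) : Sp g → ℂ := Fs (co B 1 fun _ => 1)

/-- its derivative in the direction `v` -/
noncomputable def thv {g : ℕ} (B : Matrix (Fin g) (Fin g) ℂ) (v : Sp g) : Sp g → ℂ :=
  Fs (dv v 1 (co B 1 fun _ => 1))

/-- the bound for the orders of vanishing -/
def Kg (g : ℕ) : ℕ := g * (2 * g * (3 * g) ^ (g - 1))

/-- the functional on polynomials given by the coefficients `c` -/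
noncomputable def ml {g : ℕ} (c : Lat g → ℂ) (P : MvPolynomial (Fin g) ℂ) : ℂ :=
  ∑' s, c s * MvPolynomial.eval (fun i => (s i : ℂ)) P

/-- the coefficients of the residue class `σ` modulo two -/
noncomputable def cf {g : ℕ} (u : Sp g) (B : Matrix (Fin g) (Fin g) ℂ) (σ : Fin g → ZMod 2) :
    Lat g → ℂ :=
  fun s => if (fun i => ((s i : ℤ) : ZMod 2)) = σ then
    Complex.exp (2 * Real.pi * dot s u - (Real.pi / 2) * Q B s) else 0

/-- the double moment `∑ p(n) p(m) P(n+m) R(n-m)` -/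
noncomputable def GG {g : ℕ} (p : Lat g → ℂ) (P R : MvPolynomial (Fin g) ℂ) : ℂ :=
  ∑' nm : Lat g × Lat g, p nm.1 * p nm.2 *
    (MvPolynomial.eval (fun i => ((nm.1 i : ℂ) + nm.2 i)) P *
      MvPolynomial.eval (fun i => ((nm.1 i : ℂ) - nm.2 i)) R)

/-! ### Part DEC (analysis, about 100 lines)

Proof. Let `ε > 0` be such that `Re (sᵗ B s) = sᵗ (Re B) s ≥ ε ∑ (s i)²` for all real `s` (the real
part is positive definite: minimum of a continuous function on the unit sphere, or the least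
eigenvalue). Writing `s = r + n k` with `0 ≤ r i < n`, quasi-periodicity gives
`‖C s‖ ≤ M exp (b sz s)`, with `M` = maximum of `‖C r‖` over the box times a constant. So
`‖co B n C s‖ exp (A sz s) ≤ M ∏ i, exp ((A + b) |s i| - (π ε / n) (s i)²)`, which is summable (product
of one-dimensional summable families). -/

/-- the coefficients of theta functions decay fast -/
def S_DEC : Prop := ∀ (g : ℕ) (B : Matrix (Fin g) (Fin g) ℂ), IsParameter B → ∀ (n : ℕ), 1 ≤ n →
  ∀ (t : Sp g) (C : Lat g → ℂ), QP n t C → Dec (co B n C)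

/-! ### Part TAY (analysis, about 120 lines)

Proof. `Fs c (x + t • w) = ∑ s, b s * exp (t z_s)`, `b s = c s exp (2 π s·x)`, `z_s = 2 π s·w`. By
`Complex.norm_exp_sub_sum_le_norm_mul_exp` the difference with the Taylor polynomial is at most
`∑ ‖b s‖ ‖t z_s‖ ^ M exp ‖t z_s‖ ≤ ‖t‖ ^ M ∑ ‖b s‖ ‖z_s‖ ^ M exp ‖z_s‖` for `‖t‖ ≤ 1`, and this sum is finite
by `Dec c` (`‖z_s‖ ≤ A sz s`, `y ^ M ≤ M! exp y`). `S_DV` is the same estimate. `S_DER` follows from the
Taylor formula with `M = 2` at the point `x + t₀ • w`. -/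

/-- derivatives of fast decaying coefficients decay fast -/
def S_DV : Prop := ∀ (g : ℕ) (c : Lat g → ℂ), Dec c → ∀ (w : Sp g) (k : ℕ), Dec (dv w k c)

/-- the Taylor formula on lines -/
def S_TAY : Prop := ∀ (g : ℕ) (c : Lat g → ℂ), Dec c → ∀ (x w : Sp g) (M : ℕ), ∃ K : ℝ, ∀ t : ℂ,
  ‖t‖ ≤ 1 → ‖Fs c (x + t • w) - ∑ k ∈ range M, t ^ k / (k.factorial : ℂ) * Fs (dv w k c) x‖ ≤
    K * ‖t‖ ^ M

/-- the derivative on lines -/
def S_DER : Prop := ∀ (g : ℕ) (c : Lat g → ℂ), Dec c → ∀ (x w : Sp g) (t₀ : ℂ),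
  HasDerivAt (fun t : ℂ => Fs c (x + t • w)) (Fs (dv w 1 c) (x + t₀ • w)) t₀

/-! ### Part UNI (uniqueness of Fourier coefficients, about 80 lines)

Proof. Put `x = i y` with `y` real: the absolutely convergent Fourier series `∑ c s exp (2 π i s·y)`
vanishes identically, so all `c s` are zero: either by `UnitAddTorus.mFourierCoeff`, or by averaging over
the points `y ∈ (1/N) {0, …, N-1}^g`: `∑_{s ≡ s₀ mod N} c s = 0`, and `N → ∞`. -/

/-- uniqueness -/
def S_UNI : Prop := ∀ (g : ℕ) (c : Lat g → ℂ), Dec c → (∀ x : Sp g, Fs c x = 0) → c = 0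

/-! ### Part ZD (one variable identity theorem, about 40 lines)

Proof. If `f x₁ ≠ 0`, `h x₂ ≠ 0`, restrict to the line `x₁ + t (x₂ - x₁)`: two entire functions of `t`,
neither identically zero, with product zero; contradiction
(`AnalyticOnNhd.eq_zero_or_eq_zero_of_mul_eq_zero` or the identity theorem by hand). -/

/-- no zero divisors -/
def S_ZD : Prop := ∀ (g : ℕ) (f h : Sp g → ℂ), LA f → LA h → (∀ x, f x * h x = 0) →
  (∀ x, f x = 0) ∨ ∀ x, h x = 0

/-! ### Part MUL (products, about 150 lines)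

Proof. Let `W a s = exp (-π (Q a / n + Q (s - a) / m - Q s / (n + m)))` and
`E s = ∑' a, C a * D (s - a) * W a s`. Then `co B (n+m) E s = ∑' a, co B n C a * co B m D (s - a)`, so
`Fs (co B (n+m) E) = Fs (co B n C) * Fs (co B m D)` (absolutely convergent double series, substitution
`(a, b) ↦ (a, a + b)`). `E (s + (n+m) k) = exp (2 π k·(t+t')) E s`: substitute `a ↦ a + n k` and use
`Q (a + n k) = Q a + 2 n ⟨a, k⟩ + n² Q k` (`B` symmetric), so that
`W (a + n k) (s + (n+m) k) = W a s`. -/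

/-- products -/
def S_MUL : Prop := ∀ (g : ℕ) (B : Matrix (Fin g) (Fin g) ℂ), IsParameter B → ∀ (n m : ℕ), 1 ≤ n →
  1 ≤ m → ∀ (t t' : Sp g) (f h : Sp g → ℂ), InE B n t f → InE B m t' h →
    InE B (n + m) (t + t') (fun x => f x * h x)

/-! ### Part UP (dimension, about 60 lines)

Proof. Take the periodic coefficients `C j` (`t = 0`, so `C (s + n k) = C s`); restrict them to the box
`{0, …, n-1} ^ g`, a space of dimension `n ^ g`; a nontrivial relation `∑ c j * C j s = 0` on the box holds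
for all `s` by periodicity; multiply by `exp …` and sum (`tsum` of a finite sum, summable by
`Dec`). -/

/-- more than `n ^ g` theta functions of order `n` are linearly dependent -/
def S_UP : Prop := ∀ (g : ℕ) (B : Matrix (Fin g) (Fin g) ℂ), IsParameter B → ∀ (n : ℕ), 1 ≤ n →
  ∀ (J : Type) [Fintype J], n ^ g < Fintype.card J → ∀ f : J → Sp g → ℂ, (∀ j, InE B n 0 (f j)) →
    ∃ c : J → ℂ, c ≠ 0 ∧ ∀ x, ∑ j, c j * f j x = 0

/-! ### Part LOW (dimension, about 60 lines)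

Proof. `b σ = Fs (co B n C_σ)` with `C_σ s = 1` if `s ≡ σ` modulo `n` and `0` otherwise; a relation
`∑ c σ * b σ = 0` is `Fs` of the coefficients `c (s mod n) exp (-(π/n) Q s)`; by `S_UNI` they vanish. -/

/-- there are `n ^ g` linearly independent theta functions of order `n` -/
def S_LOW : Prop := ∀ (g : ℕ) (B : Matrix (Fin g) (Fin g) ℂ), IsParameter B → ∀ (n : ℕ), 1 ≤ n →
  ∃ b : (Fin g → Fin n) → Sp g → ℂ, (∀ σ, InE B n 0 (b σ)) ∧ LinearIndependent ℂ b

/-! ### Part QPT (quasi-periodicity, about 60 lines)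

Proof. `th (x + i m) = th x` since `exp (2 π i s·m) = 1`. `th (x + B m) = exp (2 π m·x + π Q m) th x`:
in `∑ exp (2 π s·x + 2 π s·(B m) - π Q s)` substitute `s = s' + m`. The formulas for `thv` follow in the
same way (`dot (s' + m) v = dot s' v + dot m v`), or by differentiating. -/

/-- the vector `B m` -/
noncomputable def Bm {g : ℕ} (B : Matrix (Fin g) (Fin g) ℂ) (m : Lat g) : Sp g :=
  fun i => ∑ j, B i j * (m j : ℂ)

/-- the vector `i m` -/
noncomputable def Im {g : ℕ} (m : Lat g) : Sp g := fun i => Complex.I * (m i : ℂ)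

/-- quasi-periodicity of the theta function and of its derivatives -/
def S_QPT : Prop := ∀ (g : ℕ) (B : Matrix (Fin g) (Fin g) ℂ), IsParameter B → ∀ (x v : Sp g)
  (m : Lat g),
    (th B (x + Im m) = th B x ∧ thv B v (x + Im m) = thv B v x) ∧
    ∃ E : ℂ, E ≠ 0 ∧ th B (x + Bm B m) = E * th B x ∧
      thv B v (x + Bm B m) = E * (thv B v x + 2 * Real.pi * dot m v * th B x)

/-! ### Part ANN (the core, about 200 lines)

Write `θ = th B`, `θ_v = thv B v`, `θ_w = thv B w`, `θ_wv = Fs (dv w 1 (dv v 1 ..))`. Put `q = 3 p`. The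
hypothesis says: for all `x + y + z = q`

  (1) `c₀ θ(x)θ(y)θ(z) + θ_v(x)θ(y)θ(z) + θ(x)θ_v(y)θ(z) + θ(x)θ(y)θ_v(z) = 0`.

Differentiate (1) at `(x + s w, y, z - s w)` at `s = 0` (`S_DER`):

  (2) `c₀ θ(y)[θ_w(x)θ(z) - θ(x)θ_w(z)] + θ_wv(x)θ(y)θ(z) - θ_v(x)θ(y)θ_w(z) + θ_v(y)[θ_w(x)θ(z) - θ(x)θ_w(z)]
       + θ_w(x)θ(y)θ_v(z) - θ(x)θ(y)θ_wv(z) = 0`.

`(2) θ(x)θ(z) - (1) [θ_w(x)θ(z) - θ(x)θ_w(z)]` is `θ(y) (θ(z)² Ω_w(x) - θ(x)² Ω_w(z)) = 0` with
`Ω_w = θ θ_wv - θ_v θ_w`. Fix `z₀` with `θ(z₀) ≠ 0` (exists by `S_UNI`) and put `κ_w = Ω_w(z₀) / θ(z₀)²`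
(linear in `w`). By `S_ZD` (in the variable `x`, with `y = q - x - z₀`): `Ω_w = κ_w θ²` everywhere.

Let `h(τ) = θ(z₀ + τ w)`, `h_v(τ) = θ_v(z₀ + τ w)`, `c = h_v(0) / h(0)` and `K = h_v - (c + κ_w τ) h`. Then
`K(0) = 0` and `K' h - K h' = h h_v' - h_v h' - κ_w h² = 0`, so `K / h` is constant near `0`, `K = 0` near
`0`, and `K = 0` by the identity theorem. At `τ = 1`: `θ_v(z₀ + w) = (c + κ_w) θ(z₀ + w)`. For `w = i m`
and `w = B m` the quasi-periodicity `S_QPT` gives `κ_(i m) = 0` and `κ_(B m) = 2 π m·v`. As `κ` is linear,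
`κ = 0` by the first, so `m·v = 0` for all `m`, `v = 0`. Then (1) is `c₀ θ(x)θ(y)θ(z) = 0`, and `c₀ = 0` by
`S_ZD`. -/

/-- the core: no functional of order one vanishes on the products of three translates -/
def S_ANN : Prop := ∀ (g : ℕ) (B : Matrix (Fin g) (Fin g) ℂ), IsParameter B → ∀ (q : Sp g) (c₀ : ℂ)
  (v : Sp g), (∀ x y z : Sp g, x + y + z = q →
    c₀ * (th B x * th B y * th B z) + thv B v x * th B y * th B z + th B x * thv B v y * th B z +
      th B x * th B y * thv B v z = 0) → c₀ = 0 ∧ v = 0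

/-! ### Part JET (linear algebra, about 120 lines)

Proof. For `a b : Sp g` the function `f x = th B (x + a) * th B (x + b) * th B (x - a - b)` is in
`InE B 3 0` by `S_MUL` (`x ↦ th B (x + a)` is in `InE B 1 a`: the coefficients `exp (2 π s·a)`). Let `V` be
the space of the functions in `InE B 3 0` (closed under linear combinations by `S_DEC`), and
`J : V → ℂ × (Fin g → ℂ)`, `f = Fs c ↦ (f p, (Fs (dv (e_i) 1 c) p)_i)`. If `J` is not surjective, there is a
nonzero functional `(c₀, v)` vanishing on its image; by the product rule this is the hypothesis of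
`S_ANN` for `q = 3 p` (`x = p + a`, `y = p + b`, `z = p - a - b`). So `J` is surjective; take preimages of
the unit vectors and use `S_TAY` with `M = 1, 2` and `dot s w = ∑ w i dot s e_i`. -/

/-- first order jets -/
def S_JET : Prop := ∀ (g : ℕ) (B : Matrix (Fin g) (Fin g) ℂ), IsParameter B → ∀ p : Sp g,
  ∃ (f₀ : Sp g → ℂ) (f : Fin g → Sp g → ℂ), InE B 3 0 f₀ ∧ (∀ i, InE B 3 0 (f i)) ∧
    ∀ w : Sp g, ∃ K : ℝ, ∀ t : ℂ, ‖t‖ ≤ 1 → ‖f₀ (p + t • w) - 1‖ ≤ K * ‖t‖ ∧
      ∀ i, ‖f i (p + t • w) - t * w i‖ ≤ K * ‖t‖ ^ 2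

/-! ### Part CNT (counting, about 150 lines)

Proof. Let `L = 2 g (3 g)^(g-1)`, `K = g L = Kg g`, `n = 3 K`. Suppose `f` in `InE B 2 0` vanishes to order
`K + 1` at `p` and is not zero. For `α : Fin g → Fin (L+1)` let
`T_α = f₀ ^ (K - |α|) * ∏ i, (f i) ^ (α i)`, in `InE B (3 K) 0` by `S_MUL` (a product of `K ≥ 1` functions of
`InE B 3 0`). The functions `T_α` and `f * b_σ`, `b_σ` from `S_LOW` for `n - 2`, are
`(L+1)^g + (n-2)^g > n^g` functions in `InE B n 0`: `n^g ≤ (n-2)^g + 2 g n^(g-1)` (Bernoulli) and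
`2 g (3 g L)^(g-1) = L^g < (L+1)^g`. By `S_UP` there is a nontrivial relation
`∑ c_α T_α + f * h = 0`, `h = ∑ d_σ b_σ`. Suppose some `c_α ≠ 0` and let `j` be the least `|α|` with
`c_α ≠ 0`; `j ≤ K`. On the line `p + t w`: `T_α = t^|α| w^α + O(t^(|α|+1))`, `f h = O(t^(K+1))`, so
`∑_{|α| = j} c_α w^α = 0` for all `w`, so these `c_α` are zero (`MvPolynomial.funext`), contradiction. So
all `c_α = 0`, `f * h = 0`, `h = 0` by `S_ZD`, and `d = 0` by independence. Contradiction. -/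

/-- order of vanishing of second order theta functions -/
def S_MB : Prop := ∀ (g : ℕ) (B : Matrix (Fin g) (Fin g) ℂ), 1 ≤ g → IsParameter B →
  ∀ (f : Sp g → ℂ) (p : Sp g), InE B 2 0 f →
    (∀ w : Sp g, ∃ K : ℝ, ∀ t : ℂ, ‖t‖ ≤ 1 → ‖f (p + t • w)‖ ≤ K * ‖t‖ ^ (Kg g + 1)) →
    ∀ x, f x = 0

/-! ### Part SUM (about 40 lines)

Proof. `‖P(s)‖ ≤ K exp (A sz s)` for a polynomial `P` (induction on `P`, or monomials), and `Dec c`. -/

/-- polynomial moments converge absolutely -/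
def S_SUM : Prop := ∀ (g : ℕ) (c : Lat g → ℂ), Dec c → ∀ P : MvPolynomial (Fin g) ℂ,
  Summable fun s => ‖c s * MvPolynomial.eval (fun i => (s i : ℂ)) P‖

/-! ### Part DCF (about 40 lines)

Proof. `weight u B = co B 1 C`, `C s = exp (2 π s·u)`, `QP 1 u C`; `cf u B σ = co B 2 C` with
`C s = exp (2 π s·u)` on the class `σ` and `0` elsewhere, `QP 2 (2 u) C`. -/

/-- the weights decay fast -/
def S_DCF : Prop := ∀ (g : ℕ) (B : Matrix (Fin g) (Fin g) ℂ), IsParameter B → ∀ u : Sp g,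
  Dec (weight u B) ∧ ∀ σ, Dec (cf u B σ)

/-! ### Part FAC (factorization, about 120 lines)

Proof. `(n + m)`, `(n - m)` runs over the pairs `(a, b)` with `a ≡ b` modulo `2`;
`2 π (n·u + m·u) - π (Q n + Q m) = 2 π a·u - (π/2) (Q a + Q b)` (parallelogram law). So the left side
is `∑_σ ∑_{a ≡ σ} ∑_{b ≡ σ} exp (2 π a·u - (π/2) Q a) P(a) * exp (-(π/2) Q b) R(b)`. -/

/-- the factorization of the double moments -/
def S_FAC : Prop := ∀ (g : ℕ) (B : Matrix (Fin g) (Fin g) ℂ), IsParameter B → ∀ (u : Sp g)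
  (P R : MvPolynomial (Fin g) ℂ),
    GG (weight u B) P R = ∑ σ : Fin g → ZMod 2, ml (cf u B σ) P * ml (cf 0 B σ) R

/-! ### Part IDP (independence on polynomials of degree at most `Kg g`, about 80 lines)

Proof. Let `C s = c (s mod 2)`, periodic. For `P = (∑ w i X i) ^ k`, `k ≤ Kg g`, the hypothesis says
`Fs (dv w k (co B 2 C)) u = 0`. So `f = Fs (co B 2 C)` satisfies the hypothesis of `S_MB` at `p = u`, by
`S_TAY` with `M = Kg g + 1`. So `f = 0` and `C = 0` by `S_UNI`. -/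

/-- independence of the functionals of the residue classes -/
def S_IDP : Prop := ∀ (g : ℕ) (B : Matrix (Fin g) (Fin g) ℂ), 1 ≤ g → IsParameter B →
  ∀ (u : Sp g) (c : (Fin g → ZMod 2) → ℂ), (∀ P : MvPolynomial (Fin g) ℂ, P.totalDegree ≤ Kg g →
    ∑ σ, c σ * ml (cf u B σ) P = 0) → c = 0

/-! ### Part DUAL (linear algebra, about 100 lines)

Proof. By independence the map `P ↦ (A σ P)_σ` from the polynomials of degree at most `N` to `S → ℂ` is
surjective; choose `P_τ` with `A σ P_τ = δ`, and `R_τ` with `B σ R_τ = δ`. Then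
`G(P, R) = ∑ A_τ(P) B_τ(R) = ∑ G(P, R_τ) G(P_τ, R)`. With the matrices `M = (A' σ P_τ)`,
`M' = (B' σ R_τ)` we have `Mᵀ M' = (G'(P_τ, R_τ'))  = (G(P_τ, R_τ')) = 1`, so `M' Mᵀ = 1` and
`G'(P, R) = A'(P)·B'(R) = A'(P)·M' Mᵀ B'(R) = ∑ G'(P, R_τ) G'(P_τ, R)`. -/

/-- dual polynomials -/
def S_DUAL : Prop := ∀ (g N : ℕ) (S : Type) [Fintype S]
  (A B A' B' : S → MvPolynomial (Fin g) ℂ →ₗ[ℂ] ℂ),
  (∀ c : S → ℂ, (∀ P : MvPolynomial (Fin g) ℂ, P.totalDegree ≤ N → ∑ σ, c σ * A σ P = 0) → c = 0) →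
  (∀ c : S → ℂ, (∀ P : MvPolynomial (Fin g) ℂ, P.totalDegree ≤ N → ∑ σ, c σ * B σ P = 0) → c = 0) →
  (∀ P R : MvPolynomial (Fin g) ℂ, P.totalDegree ≤ N → R.totalDegree ≤ N →
    ∑ σ, A' σ P * B' σ R = ∑ σ, A σ P * B σ R) →
  ∃ PP RR : S → MvPolynomial (Fin g) ℂ, (∀ τ, (PP τ).totalDegree ≤ N) ∧
    (∀ τ, (RR τ).totalDegree ≤ N) ∧
    (∀ P R : MvPolynomial (Fin g) ℂ, ∑ σ, A σ P * B σ R =
      ∑ τ, (∑ σ, A σ P * B σ (RR τ)) * ∑ σ, A σ (PP τ) * B σ R) ∧
    ∀ P R : MvPolynomial (Fin g) ℂ, ∑ σ, A' σ P * B' σ R =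
      ∑ τ, (∑ σ, A' σ P * B' σ (RR τ)) * ∑ σ, A' σ (PP τ) * B' σ R

/-! ### Part EXPD (polynomials, about 100 lines)

Proof. `P(x + y) R(x - y)` is a polynomial in `Fin g ⊕ Fin g` variables of total degree at most
`deg P + deg R`; its monomials are products of a monomial in `x` and one in `y`. Sum over the
lattice (`Dec p` gives the summability). The second statement is the binomial expansion of
`(X + Y)^a (X - Y)^b`, `X = n·v`, `Y = m·v`, `b` even: `e j` are its coefficients, `e 0 = e (a+b) = 1`. -/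

/-- double moments depend on the moments only -/
def S_EXPD : Prop := ∀ (g : ℕ) (P R : MvPolynomial (Fin g) ℂ), ∃ (J : Type) (_ : Fintype J)
  (U V : J → MvPolynomial (Fin g) ℂ), (∀ j, (U j).totalDegree + (V j).totalDegree ≤
    P.totalDegree + R.totalDegree) ∧
    ∀ p : Lat g → ℂ, Dec p → GG p P R = ∑ j, ml p (U j) * ml p (V j)

/-- the linear form `∑ v i X i` -/
noncomputable def lf {g : ℕ} (v : Sp g) : MvPolynomial (Fin g) ℂ :=
  ∑ i, MvPolynomial.C (v i) * MvPolynomial.X i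

/-- double moments of powers of one linear form -/
def S_EXPV : Prop := ∀ (a b : ℕ), Even b → 1 ≤ a + b → ∃ e : ℕ → ℂ,
  ∀ (g : ℕ) (v : Sp g) (p : Lat g → ℂ), Dec p → ml p 1 = 1 →
    GG p (lf v ^ a) (lf v ^ b) = 2 * ml p (lf v ^ (a + b)) +
      ∑ j ∈ Ico 1 (a + b), e j * ml p (lf v ^ (a + b - j)) * ml p (lf v ^ j)

/-! ### Part POL (polarization, about 60 lines)

Proof. `ml p ((∑ v i X i)^k) - ml p' (..)` is the polynomial in `v` with the coefficients
`multinomial(γ) (m_γ - m'_γ)`, `|γ| = k` (`Finset.sum_pow_eq_sum_piAntidiag`); it vanishes for all `v`, so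
`m_γ = m'_γ` (`MvPolynomial.funext`). -/

/-- polarization -/
def S_POL : Prop := ∀ (g k : ℕ) (p p' : Lat g → ℂ), Dec p → Dec p' →
  (∀ P : MvPolynomial (Fin g) ℂ, P.totalDegree ≤ k → ml p P = ml p' P) →
  (∀ v : Sp g, ml p (lf v ^ (k + 1)) = ml p' (lf v ^ (k + 1))) →
  ∀ P : MvPolynomial (Fin g) ℂ, P.totalDegree ≤ k + 1 → ml p P = ml p' P

/-! ### Part ALL (about 60 lines)

Proof. `c = p - p'` has `∑ c s (s·w)^k = 0` for all `k`, `w`. So
`Fs c w = ∑_s c s ∑_k (2 π s·w)^k / k! = 0` (exchange of absolutely convergent sums); now `S_UNI`. -/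

/-- all moments determine the coefficients -/
def S_ALL : Prop := ∀ (g : ℕ) (p p' : Lat g → ℂ), Dec p → Dec p' →
  (∀ P : MvPolynomial (Fin g) ℂ, ml p P = ml p' P) → p = p'

/-- the theorem -/
def S_MAIN : Prop := ∀ g : ℕ, 1 ≤ g → MomentsDetermine g (2 * Kg g + 2)

end Pool.Agent.L7h93.TH
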