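import Pool.Agent.L7h93.TH.Stm

set_option autoImplicit false

/-! Part SUM and part DCF. -/

namespace Pool.Agent.L7h93.TH

open Pool.Agent.Results.MP_e16cda_ag.ThreeMomentsFail Finset

theorem sz_nonneg {g : ℕ} (s : Lat g) : 0 ≤ sz s := Finset.sum_nonneg fun _ _ => abs_nonneg _

theorem norm_coord_le {g : ℕ} (s : Lat g) (i : Fin g) : ‖((s i : ℤ) : ℂ)‖ ≤ sz s := by
  rw [Complex.norm_intCast]
  exact Finset.single_le_sum (f := fun i => |(s i : ℝ)|) (fun j _ => abs_nonneg _) (Finset.mem_univ i)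

/-- polynomials grow at most exponentially -/
theorem eval_bound {g : ℕ} (P : MvPolynomial (Fin g) ℂ) : ∃ K A : ℝ, 0 ≤ K ∧ 0 ≤ A ∧ ∀ s : Lat g,
    ‖MvPolynomial.eval (fun i => (s i : ℂ)) P‖ ≤ K * Real.exp (A * sz s) := by
  induction P using MvPolynomial.induction_on with
  | C a =>
    refine ⟨‖a‖, 0, norm_nonneg _, le_rfl, fun s => ?_⟩
    simp
  | add P R hP hR =>
    obtain ⟨K, A, hK, hA, h⟩ := hP
    obtain ⟨K', A', hK', hA', h'⟩ := hR
    refine ⟨K + K', max A A', by positivity, le_max_of_le_left hA, fun s => ?_⟩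
    rw [map_add]
    refine (norm_add_le _ _).trans ?_
    rw [add_mul]
    refine add_le_add ((h s).trans ?_) ((h' s).trans ?_)
    · exact mul_le_mul_of_nonneg_left (Real.exp_le_exp.2
        (mul_le_mul_of_nonneg_right (le_max_left _ _) (sz_nonneg s))) hK
    · exact mul_le_mul_of_nonneg_left (Real.exp_le_exp.2
        (mul_le_mul_of_nonneg_right (le_max_right _ _) (sz_nonneg s))) hK'
  | mul_X P i hP =>
    obtain ⟨K, A, hK, hA, h⟩ := hP
    refine ⟨K, A + 1, hK, by positivity, fun s => ?_⟩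
    rw [map_mul, MvPolynomial.eval_X, norm_mul]
    have h1 : ‖((s i : ℤ) : ℂ)‖ ≤ Real.exp (sz s) :=
      (norm_coord_le s i).trans ((by linarith : sz s ≤ sz s + 1).trans (Real.add_one_le_exp _))
    calc _ ≤ (K * Real.exp (A * sz s)) * Real.exp (sz s) :=
          mul_le_mul (h s) h1 (norm_nonneg _) (by positivity)
      _ = K * Real.exp ((A + 1) * sz s) := by
          rw [mul_assoc, ← Real.exp_add]; ring_nf

theorem s_SUM : S_SUM := by
  intro g c hc P
  obtain ⟨K, A, hK, hA, h⟩ := eval_bound P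
  refine Summable.of_nonneg_of_le (fun _ => norm_nonneg _) (fun s => ?_) ((hc A).mul_left K)
  rw [norm_mul]
  calc _ ≤ ‖c s‖ * (K * Real.exp (A * sz s)) := mul_le_mul_of_nonneg_left (h s) (norm_nonneg _)
    _ = K * (‖c s‖ * Real.exp (A * sz s)) := by ring

theorem weight_eq_co {g : ℕ} (u : Sp g) (B : Matrix (Fin g) (Fin g) ℂ) :
    weight u B = co B 1 (fun s => Complex.exp (2 * Real.pi * dot s u)) := by
  funext s
  unfold weight co dot Q
  rw [← Complex.exp_add]
  congr 1
  push_cast
  ring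

theorem dot_add {g : ℕ} (s k : Lat g) (x : Sp g) : dot (s + k) x = dot s x + dot k x := by
  unfold dot
  rw [← Finset.sum_add_distrib]
  refine Finset.sum_congr rfl fun i _ => ?_
  rw [Pi.add_apply]; push_cast; ring

theorem dot_smul {g : ℕ} (n : ℤ) (k : Lat g) (x : Sp g) : dot (n • k) x = n * dot k x := by
  unfold dot
  rw [Finset.mul_sum]
  refine Finset.sum_congr rfl fun i _ => ?_
  rw [Pi.smul_apply, smul_eq_mul]; push_cast; ring

theorem cf_eq_co {g : ℕ} (u : Sp g) (B : Matrix (Fin g) (Fin g) ℂ) (σ : Fin g → ZMod 2) :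
    cf u B σ = co B 2 (fun s => if (fun i => ((s i : ℤ) : ZMod 2)) = σ then
      Complex.exp (2 * Real.pi * dot s u) else 0) := by
  funext s
  unfold cf co
  by_cases hs : (fun i => ((s i : ℤ) : ZMod 2)) = σ
  · simp only [if_pos hs]
    rw [← Complex.exp_add]
    congr 1
    push_cast
    ring
  · simp only [if_neg hs]
    rw [zero_mul]

theorem s_DCF (h : S_DEC) : S_DCF := by
  intro g B hB u
  refine ⟨?_, fun σ => ?_⟩
  · rw [weight_eq_co]
    refine h g B hB 1 le_rfl u _ ?_
    intro s k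
    simp only
    rw [← Complex.exp_add, dot_add, dot_smul]
    congr 1
    push_cast
    ring
  · rw [cf_eq_co]
    refine h g B hB 2 (by norm_num) ((2 : ℂ) • u) _ ?_
    intro s k
    have e : (fun i => (((s + ((2 : ℕ) : ℤ) • k) i : ℤ) : ZMod 2)) =
        fun i => ((s i : ℤ) : ZMod 2) := by
      funext i
      have h2 : (2 : ZMod 2) = 0 := by decide
      simp only [Pi.add_apply, Pi.smul_apply, smul_eq_mul]
      push_cast
      rw [h2, zero_mul, add_zero]
    simp only
    rw [e]
    split_ifs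
    · rw [← Complex.exp_add, dot_add, dot_smul]
      congr 1
      have : dot k ((2 : ℂ) • u) = 2 * dot k u := by
        unfold dot
        rw [Finset.mul_sum]
        refine Finset.sum_congr rfl fun i _ => ?_
        rw [Pi.smul_apply, smul_eq_mul]; ring
      rw [this]
      push_cast
      ring
    · rw [mul_zero]

end Pool.Agent.L7h93.TH
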